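import Pool.Agent.P8H18.RR.StmZ
import Pool.Agent.H379R2.SWP

/-!
# Project RR, package PSI, first part: the sum over prime powers with the weight `log (x / n)`
-/

set_option autoImplicit false

open Complex Filter Topology Set MeasureTheory Metric
open scoped Real
open scoped ArithmeticFunction.vonMangoldt

namespace Pool.Agent.P8H90.RR

open Pool.Agent.W66 Pool.Agent.W66L
open Pool.Agent.H379R2.SW (vert vert_re vert_im vert_ne_zero continuous_vert perron_sum)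
open Pool.Agent.P8H18.RR

/-- the log-weighted sum -/
noncomputable def pl (Q : ℕ) (χ : DirichletCharacter ℂ Q) (x : ℝ) : ℂ :=
  ∑ n ∈ Finset.Icc 1 ⌊x⌋₊, (χ (n : ZMod Q) * ((Λ n : ℝ) : ℂ)) * ((Real.log (x / n) : ℝ) : ℂ)

lemma norm_inv_sq_le {s : ℂ} (hs : 7 / 8 ≤ s.re) : ‖(s ^ 2)⁻¹‖ ≤ 2 / (1 + s.im ^ 2) := by
  have h1 : ‖s‖ ^ 2 = s.re ^ 2 + s.im ^ 2 := by
    rw [Complex.sq_norm, Complex.normSq_apply]
    ring
  have h2 : (1 + s.im ^ 2) / 2 ≤ ‖s‖ ^ 2 := by
    rw [h1]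
    nlinarith [sq_nonneg s.im]
  rw [norm_inv, norm_pow]
  have h3 : 0 < (1 + s.im ^ 2) / 2 := by positivity
  calc (‖s‖ ^ 2)⁻¹ ≤ ((1 + s.im ^ 2) / 2)⁻¹ := inv_anti₀ h3 h2
    _ = 2 / (1 + s.im ^ 2) := by rw [inv_div]

theorem pl_bound {c C : ℝ} (hc : 0 < c) (hc8 : c ≤ 1 / 8) (hC : 0 < C) : ∃ C1 : ℝ, 0 < C1 ∧
    ∀ ℓ : ℝ, 1 ≤ ℓ → ∀ (Q : ℕ) [NeZero Q] (χ : DirichletCharacter ℂ Q), χ ≠ 1 → RegC c C ℓ Q χ →
    ∀ x R : ℝ, Real.exp 1 ≤ x → 1 ≤ R → R ≤ Real.exp ℓ →
    ‖pl Q χ x‖ ≤ C1 * x * (ℓ ^ 2 * Real.exp (-(c * Real.log x / ℓ)) + ℓ ^ 2 / R ^ 2 +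
      Real.log x / R) := by
  obtain ⟨A, hA, hfar'⟩ := DX_far
  refine ⟨C * 2 * 4 + 12 * C * 2 + A * 2 * 6, by positivity,
    fun ℓ hℓ1 Q _ χ hχ hzf x R hx hR hRℓ => ?_⟩
  have hfar := hfar' Q χ hχ
  have hLd := DirichletCharacter.differentiable_LFunction hχ
  have hℓ0 : 0 < ℓ := by linarith
  have hx0 : 0 < x := lt_of_lt_of_le (Real.exp_pos 1) hx
  have hx1 : 1 ≤ x := by
    have := Real.add_one_le_exp 1
    linarith
  have hu : 1 ≤ Real.log x := by
    rw [Real.le_log_iff_exp_le hx0]; exact hx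
  have hxu : Real.exp (Real.log x) = x := Real.exp_log hx0
  set u := Real.log x with hu'
  have hu0 : 0 < u := by linarith
  have hR0 : 0 < R := by linarith
  set c1 : ℝ := 1 / u with hc1
  have hc10 : 0 < c1 := by positivity
  have hc11 : c1 ≤ 1 := by rw [hc1, div_le_one hu0]; exact hu
  have hc1u : c1 * u = 1 := by rw [hc1]; field_simp
  set η : ℝ := c / ℓ with hη
  have hη0 : 0 < η := by positivity
  have hη1 : η ≤ 1 / 8 := by
    rw [hη, div_le_iff₀ hℓ0]
    nlinarith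
  obtain ⟨b, hb⟩ : ∃ b : ℝ, b = 1 + c1 := ⟨_, rfl⟩
  obtain ⟨a0, ha0⟩ : ∃ a : ℝ, a = 1 - η := ⟨_, rfl⟩
  set G : ℂ → ℂ := fun s => -DX χ s * ((s ^ 2)⁻¹ * cexp ((s - 1) * u)) with hG
  have he1 : Real.exp 1 ≤ 3 := by linarith [Real.exp_one_lt_d9]
  have hre_exp : ∀ s : ℂ, ‖cexp ((s - 1) * u)‖ = Real.exp ((s.re - 1) * u) := by
    intro s
    rw [Complex.norm_exp, Complex.re_mul_ofReal]
    simp
  -- on the rectangle
  have hrect : ∀ s : ℂ, a0 ≤ s.re → s.re ≤ b → |s.im| ≤ R → χ.LFunction s ≠ 0 ∧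
      ‖G s‖ ≤ C * ℓ ^ 2 * (2 / (1 + s.im ^ 2)) * Real.exp ((s.re - 1) * u) := by
    intro s h1 h2 h3
    obtain ⟨k1, k2⟩ := hzf s (by rw [← hη]; linarith) (by linarith) (h3.trans hRℓ)
    refine ⟨k1, ?_⟩
    simp only [hG]
    rw [norm_mul, norm_mul, norm_neg, hre_exp, ← mul_assoc]
    apply mul_le_mul_of_nonneg_right _ (Real.exp_pos _).le
    apply mul_le_mul k2 (norm_inv_sq_le (by linarith)) (norm_nonneg _) (by positivity)
  have hGd : ∀ s : ℂ, s ≠ 0 → χ.LFunction s ≠ 0 → DifferentiableAt ℂ G s := by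
    intro s hs0 hs
    have h1 : DifferentiableAt ℂ (DX χ) s :=
      ((hLd.analyticAt _).deriv.differentiableAt).div (hLd _) hs
    have h4 : DifferentiableAt ℂ (fun s : ℂ => (s ^ 2)⁻¹) s := by
      apply DifferentiableAt.inv (by fun_prop)
      exact pow_ne_zero 2 hs0
    exact (h1.neg).mul (h4.mul (by fun_prop))
  have hne0 : ∀ s : ℂ, a0 ≤ s.re → s ≠ 0 := by
    intro s h1 h2
    rw [h2, Complex.zero_re] at h1
    linarith
  -- the line integral as an integral over `τ`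
  have hline : pl Q χ x = (x : ℂ) * (((2 * π)⁻¹ : ℝ) • ∫ τ : ℝ, G (b + τ * I)) := by
    set a : ℕ → ℂ := (fun n : ℕ => χ (n : ZMod Q)) *
      (fun n : ℕ => ((ArithmeticFunction.vonMangoldt n : ℝ) : ℂ)) with ha
    have hb1 : 1 < b := by linarith
    have hsum : LSeriesSummable a (b : ℂ) :=
      DirichletCharacter.LSeriesSummable_twist_vonMangoldt χ (by simpa using hb1)
    have hpsi : pl Q χ x = ∑ n ∈ Finset.Icc 1 ⌊x⌋₊, a n * ((Real.log (x / n) : ℝ) : ℂ) := rfl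
    rw [hpsi, perron_sum a hb1.le hsum hx1]
    have hexp : Real.exp (b * Real.log x) = Real.exp 1 * x := by
      rw [← hu', hb, add_mul, one_mul, hc1u, add_comm, Real.exp_add, hxu]
    rw [hexp]
    have h1 : ∀ ξ : ℝ, LSeries a (vert b ξ) / (vert b ξ) ^ 2 *
        cexp (((2 * π * ξ * Real.log x : ℝ) : ℂ) * I) =
        ((Real.exp 1 : ℝ) : ℂ)⁻¹ * (fun τ : ℝ => G (b + τ * I)) (2 * π * ξ) := by
      intro ξ
      have h2 : 1 < (vert b ξ).re := by rw [vert_re]; exact hb1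
      have h3 : LSeries a (vert b ξ) = -DX χ (vert b ξ) := by
        unfold DX
        rw [ha, DirichletCharacter.LSeries_twist_vonMangoldt_eq χ h2,
          DirichletCharacter.deriv_LFunction_eq_deriv_LSeries χ h2,
          DirichletCharacter.LFunction_eq_LSeries χ h2, neg_div]
      have h4 : ((b : ℂ) + ((2 * π * ξ : ℝ) : ℂ) * I) = vert b ξ := by
        simp only [vert]
      have h5 : cexp ((vert b ξ - 1) * u) = ((Real.exp 1 : ℝ) : ℂ) *
          cexp (((2 * π * ξ * Real.log x : ℝ) : ℂ) * I) := by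
        rw [Complex.ofReal_exp, ← Complex.exp_add]
        congr 1
        rw [← h4, ← hu', hb]
        have : (c1 : ℂ) * (u : ℂ) = 1 := by exact_mod_cast hc1u
        push_cast
        linear_combination this
      have h6 : ((Real.exp 1 : ℝ) : ℂ) ≠ 0 := by
        exact_mod_cast (Real.exp_pos 1).ne'
      simp only [hG]
      rw [h4, h5, h3]
      field_simp
    simp only [h1]
    rw [integral_const_mul,
      MeasureTheory.Measure.integral_comp_mul_left (fun τ : ℝ => G (b + τ * I)) (2 * π),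
      abs_of_pos (by positivity)]
    have h6 : ((Real.exp 1 : ℝ) : ℂ) ≠ 0 := by
      exact_mod_cast (Real.exp_pos 1).ne'
    have h7 : ∀ S : ℂ, (((Real.exp 1 * x : ℝ)) : ℂ) * (((Real.exp 1 : ℝ) : ℂ)⁻¹ * S) =
        (x : ℂ) * S := by
      intro S
      rw [Complex.ofReal_mul, mul_comm ((Real.exp 1 : ℝ) : ℂ) (x : ℂ), mul_assoc,
        mul_inv_cancel_left₀ h6]
    exact h7 _
  -- bound on the whole line
  have hGline : ∀ τ : ℝ, ‖G (b + τ * I)‖ ≤ (A * u * 2 * 3) * (1 + τ ^ 2)⁻¹ := by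
    intro τ
    have hre2 : ((b : ℂ) + τ * I).re = b := by simp
    have him2 : ((b : ℂ) + τ * I).im = τ := by simp
    have h1 := hfar ((b : ℂ) + τ * I) (by rw [hre2]; linarith) (by rw [hre2]; linarith)
    rw [hre2, show b - 1 = c1 by linarith] at h1
    have h2 := norm_inv_sq_le (s := (b : ℂ) + τ * I) (by rw [hre2]; linarith)
    rw [him2] at h2
    have h3 := hre_exp ((b : ℂ) + τ * I)
    rw [hre2, show b - 1 = c1 by linarith, hc1u] at h3
    simp only [hG]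
    rw [norm_mul, norm_mul, norm_neg, h3]
    have h4 : A / c1 = A * u := by rw [hc1]; field_simp
    rw [h4] at h1
    calc ‖DX χ ((b : ℂ) + τ * I)‖ * (‖(((b : ℂ) + τ * I) ^ 2)⁻¹‖ * Real.exp 1) ≤
        (A * u) * ((2 / (1 + τ ^ 2)) * 3) := by gcongr
      _ = _ := by rw [div_eq_mul_inv]; ring
  have hGcont : Continuous fun τ : ℝ => G (b + τ * I) := by
    rw [continuous_iff_continuousAt]
    intro τ
    have hre2 : ((b : ℂ) + τ * I).re = b := by simp
    have h1 : χ.LFunction ((b : ℂ) + τ * I) ≠ 0 := LF_ne_zero hχ (by rw [hre2]; linarith)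
    have h2 : ContinuousAt (fun τ : ℝ => (b : ℂ) + τ * I) τ := by fun_prop
    exact ContinuousAt.comp (g := G) (f := fun τ : ℝ => (b : ℂ) + τ * I)
      (hGd _ (hne0 _ (by rw [hre2]; linarith)) h1).continuousAt h2
  have hGint : Integrable fun τ : ℝ => G (b + τ * I) :=
    (integrable_inv_one_add_sq.const_mul (A * u * 2 * 3)).mono' hGcont.aestronglyMeasurable
      (Eventually.of_forall hGline)
  -- the tail
  have htail : ‖∫ τ in (Set.Ioc (-R) R)ᶜ, G (b + τ * I)‖ ≤ (A * u * 2 * 3) * (2 / R) := by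
    have h1 : ‖∫ τ in (Set.Ioc (-R) R)ᶜ, G (b + τ * I)‖ ≤
        ∫ τ in (Set.Ioc (-R) R)ᶜ, (A * u * 2 * 3) * (1 + τ ^ 2)⁻¹ :=
      norm_integral_le_of_norm_le (integrable_inv_one_add_sq.const_mul _).integrableOn
        (Eventually.of_forall fun τ => hGline τ)
    refine h1.trans ?_
    rw [integral_const_mul]
    apply mul_le_mul_of_nonneg_left _ (by positivity)
    have h2 := integral_add_compl (measurableSet_Ioc (a := -R) (b := R)) integrable_inv_one_add_sq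
      (μ := volume)
    rw [integral_univ_inv_one_add_sq, ← intervalIntegral.integral_of_le (by linarith),
      integral_inv_one_add_sq, Real.arctan_neg] at h2
    have h3 := tail_arctan hR
    linarith
  -- the rectangle
  have hcauchy := Complex.integral_boundary_rect_eq_zero_of_differentiableOn G
    (⟨a0, -R⟩ : ℂ) (⟨b, R⟩ : ℂ) (by
      intro s hs
      rw [Complex.mem_reProdIm] at hs
      simp only at hs
      rw [uIcc_of_le (by linarith), uIcc_of_le (by linarith)] at hs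
      exact (hGd s (hne0 s hs.1.1)
        (hrect s hs.1.1 hs.1.2 (abs_le.2 hs.2)).1).differentiableWithinAt)
  simp only at hcauchy
  have hside : ∀ y : ℝ, |y| = R →
      ‖∫ x : ℝ in a0..b, G (x + ((y : ℝ) : ℂ) * I)‖ ≤ 6 * (C * ℓ ^ 2 * 2 / R ^ 2) := by
    intro y hy
    have h1 : ∀ x ∈ Set.uIoc a0 b, ‖G (x + ((y : ℝ) : ℂ) * I)‖ ≤ 3 * (C * ℓ ^ 2 * 2 / R ^ 2) := by
      intro x hx
      rw [uIoc_of_le (by linarith)] at hx
      have hre : ((x : ℂ) + ((y : ℝ) : ℂ) * I).re = x := by simp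
      have him : ((x : ℂ) + ((y : ℝ) : ℂ) * I).im = y := by simp
      have h2 := (hrect ((x : ℂ) + ((y : ℝ) : ℂ) * I) (by rw [hre]; exact hx.1.le)
        (by rw [hre]; exact hx.2) (by rw [him, hy])).2
      rw [hre, him] at h2
      refine h2.trans ?_
      have h3 : Real.exp ((x - 1) * u) ≤ 3 := by
        refine le_trans (Real.exp_le_exp.2 ?_) he1
        calc (x - 1) * u ≤ c1 * u := by
              apply mul_le_mul_of_nonneg_right _ hu0.le
              linarith [hx.2]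
          _ = 1 := hc1u
      have h4 : 2 / (1 + y ^ 2) ≤ 2 / R ^ 2 := by
        apply div_le_div_of_nonneg_left (by norm_num) (by positivity)
        rw [← hy, sq_abs]
        linarith
      calc C * ℓ ^ 2 * (2 / (1 + y ^ 2)) * Real.exp ((x - 1) * u) ≤ C * ℓ ^ 2 * (2 / R ^ 2) * 3 := by
            gcongr
        _ = _ := by ring
    refine (intervalIntegral.norm_integral_le_of_norm_le_const h1).trans ?_
    have h5 : |b - a0| ≤ 2 := by
      rw [abs_of_pos (by linarith)]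
      linarith
    calc _ ≤ 3 * (C * ℓ ^ 2 * 2 / R ^ 2) * 2 := by
          apply mul_le_mul_of_nonneg_left h5 (by positivity)
      _ = _ := by ring
  have hbot := hside (-R) (by rw [abs_neg, abs_of_pos hR0])
  have htop := hside R (abs_of_pos hR0)
  have hleft : ‖∫ y : ℝ in (-R)..R, G (((a0 : ℝ) : ℂ) + y * I)‖ ≤
      C * ℓ ^ 2 * 2 * Real.exp (-(c * u / ℓ)) * 4 := by
    have h1 : ∀ y ∈ Set.Ioc (-R) R, ‖G (((a0 : ℝ) : ℂ) + y * I)‖ ≤
        C * ℓ ^ 2 * 2 * Real.exp (-(c * u / ℓ)) * (1 + y ^ 2)⁻¹ := by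
      intro y hy
      have hre : (((a0 : ℝ) : ℂ) + y * I).re = a0 := by simp
      have him : (((a0 : ℝ) : ℂ) + y * I).im = y := by simp
      have h2 := (hrect (((a0 : ℝ) : ℂ) + y * I) (by rw [hre])
        (by rw [hre]; linarith) (by rw [him]; exact abs_le.2 ⟨hy.1.le, hy.2⟩)).2
      rw [hre, him] at h2
      refine h2.trans (le_of_eq ?_)
      have h3 : (a0 - 1) * u = -(c * u / ℓ) := by rw [ha0, hη]; ring
      rw [h3, div_eq_mul_inv]
      ring
    have h2 := intervalIntegral.norm_integral_le_of_norm_le (μ := volume) (a := -R) (b := R)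
      (f := fun y : ℝ => G (((a0 : ℝ) : ℂ) + y * I))
      (g := fun y => C * ℓ ^ 2 * 2 * Real.exp (-(c * u / ℓ)) * (1 + y ^ 2)⁻¹)
      (by linarith) (Eventually.of_forall h1)
      ((integrable_inv_one_add_sq.const_mul _).intervalIntegrable)
    refine h2.trans ?_
    rw [intervalIntegral.integral_const_mul, integral_inv_one_add_sq]
    apply mul_le_mul_of_nonneg_left _ (by positivity)
    have h3 := Real.arctan_lt_pi_div_two R
    have h4 := Real.neg_pi_div_two_lt_arctan (-R)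
    have h5 := Real.pi_lt_four
    linarith
  have hmid : ‖∫ y : ℝ in (-R)..R, G ((b : ℂ) + y * I)‖ ≤
      C * ℓ ^ 2 * 2 * Real.exp (-(c * u / ℓ)) * 4 + 12 * (C * ℓ ^ 2 * 2 / R ^ 2) := by
    have h1 : I • ∫ y : ℝ in (-R)..R, G ((b : ℂ) + y * I) =
        I • (∫ y : ℝ in (-R)..R, G (((a0 : ℝ) : ℂ) + y * I)) -
        (∫ x : ℝ in a0..b, G (x + ((-R : ℝ) : ℂ) * I)) +
        ∫ x : ℝ in a0..b, G (x + ((R : ℝ) : ℂ) * I) := by
      linear_combination hcauchy
    have h2 : ‖∫ y : ℝ in (-R)..R, G ((b : ℂ) + y * I)‖ =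
        ‖I • ∫ y : ℝ in (-R)..R, G ((b : ℂ) + y * I)‖ := by
      rw [norm_smul, Complex.norm_I, one_mul]
    rw [h2, h1]
    refine (norm_add_le _ _).trans ?_
    have h3 := norm_sub_le (I • (∫ y : ℝ in (-R)..R, G (((a0 : ℝ) : ℂ) + y * I)))
      (∫ x : ℝ in a0..b, G (x + ((-R : ℝ) : ℂ) * I))
    rw [norm_smul, Complex.norm_I, one_mul] at h3
    linarith
  rw [hline, norm_mul, norm_smul, Real.norm_of_nonneg (by positivity : 0 ≤ (2 * π)⁻¹),
    Complex.norm_real, Real.norm_of_nonneg hx0.le]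
  have htot : ‖∫ τ : ℝ, G (b + τ * I)‖ ≤ (C * ℓ ^ 2 * 2 * Real.exp (-(c * u / ℓ)) * 4 +
      12 * (C * ℓ ^ 2 * 2 / R ^ 2)) + (A * u * 2 * 3) * (2 / R) := by
    rw [← integral_add_compl (measurableSet_Ioc (a := -R) (b := R)) hGint,
      ← intervalIntegral.integral_of_le (by linarith)]
    exact (norm_add_le _ _).trans (add_le_add hmid htail)
  have hpi : (2 * π)⁻¹ ≤ 1 := by
    apply inv_le_one_of_one_le₀
    have := Real.pi_gt_three
    linarith
  calc x * ((2 * π)⁻¹ * ‖∫ τ : ℝ, G (b + τ * I)‖) ≤ x * (1 * ‖∫ τ : ℝ, G (b + τ * I)‖) := by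
        apply mul_le_mul_of_nonneg_left _ hx0.le
        exact mul_le_mul_of_nonneg_right hpi (norm_nonneg _)
    _ ≤ x * ((C * ℓ ^ 2 * 2 * Real.exp (-(c * u / ℓ)) * 4 +
      12 * (C * ℓ ^ 2 * 2 / R ^ 2)) + (A * u * 2 * 3) * (2 / R)) := by
        rw [one_mul]; exact mul_le_mul_of_nonneg_left htot hx0.le
    _ = x * ((C * 2 * 4) * (ℓ ^ 2 * Real.exp (-(c * u / ℓ))) + (12 * C * 2) * (ℓ ^ 2 / R ^ 2) +
        (A * 2 * 6) * (u / R)) := by ring
    _ ≤ x * ((C * 2 * 4 + 12 * C * 2 + A * 2 * 6) * (ℓ ^ 2 * Real.exp (-(c * u / ℓ))) +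
        (C * 2 * 4 + 12 * C * 2 + A * 2 * 6) * (ℓ ^ 2 / R ^ 2) +
        (C * 2 * 4 + 12 * C * 2 + A * 2 * 6) * (u / R)) := by
        have p1 : 0 < C * 2 * 4 := by positivity
        have p2 : 0 < 12 * C * 2 := by positivity
        have p3 : 0 < A * 2 * 6 := by positivity
        gcongr <;> linarith
    _ = _ := by ring

end Pool.Agent.P8H90.RR
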