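import Pool.Agent.P8H90.RR.Pl

/-!
# Project RR, package PSI: the sums over prime powers twisted by the characters modulo `10 ^ j`
-/

set_option autoImplicit false

open Filter Topology Finset
open scoped Real
open scoped ArithmeticFunction.vonMangoldt

namespace Pool.Agent.P8H90.RR

open Pool.Agent.W66 Pool.Agent.W66L
open Pool.Agent.P8H18.RR

/-- trivial bound -/
lemma psi_triv {Q : ℕ} (χ : DirichletCharacter ℂ Q) (s : Finset ℕ) (y : ℝ) (hy : 1 ≤ y)
    (hs : ∀ n ∈ s, 1 ≤ n ∧ (n : ℝ) ≤ y) (w : ℕ → ℝ) (W : ℝ) (hW : 0 ≤ W)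
    (hw : ∀ n ∈ s, |w n| ≤ W) :
    ‖∑ n ∈ s, (χ (n : ZMod Q) * ((Λ n : ℝ) : ℂ)) * ((w n : ℝ) : ℂ)‖ ≤ s.card * (Real.log y * W) := by
  refine (norm_sum_le _ _).trans ?_
  rw [← nsmul_eq_mul]
  apply Finset.sum_le_card_nsmul
  intro n hn
  obtain ⟨h1, h2⟩ := hs n hn
  have hn0 : (0 : ℝ) < n := by exact_mod_cast h1
  have hL : 0 ≤ Λ n := ArithmeticFunction.vonMangoldt_nonneg
  have hL2 : Λ n ≤ Real.log y :=
    ArithmeticFunction.vonMangoldt_le_log.trans (Real.log_le_log hn0 h2)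
  rw [norm_mul, norm_mul, Complex.norm_real, Complex.norm_real, Real.norm_eq_abs, Real.norm_eq_abs,
    abs_of_nonneg hL]
  have h3 : ‖χ (n : ZMod Q)‖ ≤ 1 := DirichletCharacter.norm_le_one χ _
  have h4 := hw n hn
  have hly : 0 ≤ Real.log y := Real.log_nonneg hy
  calc ‖χ (n : ZMod Q)‖ * Λ n * |w n| ≤ 1 * Real.log y * W := by gcongr
    _ = _ := by ring

/-- from the weight `log (x / n)` to the weight `1` -/
lemma diff_bound {Q : ℕ} (χ : DirichletCharacter ℂ Q) {x : ℕ} (hx : 1 ≤ x) {h : ℝ} (hh : 0 < h)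
    (hh1 : h ≤ 1) :
    ‖∑ n ∈ Icc 1 x, χ (n : ZMod Q) * ((Λ n : ℝ) : ℂ)‖ ≤
      2 / h * (‖pl Q χ (x * (1 + h))‖ + ‖pl Q χ x‖) + (h * x + 1) * Real.log (2 * x) := by
  have hx0 : (0 : ℝ) < x := by exact_mod_cast hx
  have hx1 : (1 : ℝ) ≤ x := by exact_mod_cast hx
  set y : ℝ := x * (1 + h) with hy
  have hxy : (x : ℝ) ≤ y := by rw [hy]; nlinarith
  have hy2 : y ≤ 2 * x := by rw [hy]; nlinarith
  have hy0 : 0 < y := by linarith
  have hfl : x ≤ ⌊y⌋₊ := Nat.le_floor hxy
  set t : ℝ := Real.log (1 + h) with ht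
  have ht1 : h / 2 ≤ t := by
    rw [ht]
    have := Real.one_sub_inv_le_log_of_pos (show 0 < 1 + h by linarith)
    refine le_trans ?_ this
    rw [← sub_nonneg]
    have : 1 - (1 + h)⁻¹ - h / 2 = h * (1 - h) / (2 * (1 + h)) := by field_simp; ring
    rw [this]
    apply div_nonneg (by nlinarith) (by linarith)
  have ht0 : 0 < t := by linarith
  set a : ℕ → ℂ := fun n => χ (n : ZMod Q) * ((Λ n : ℝ) : ℂ) with ha
  have e1 : pl Q χ y = ∑ n ∈ Icc 1 x, a n * ((Real.log (y / n) : ℝ) : ℂ) +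
      ∑ n ∈ Ioc x ⌊y⌋₊, a n * ((Real.log (y / n) : ℝ) : ℂ) := by
    unfold pl
    rw [← Finset.sum_union]
    · apply Finset.sum_congr _ fun n _ => rfl
      ext n
      simp only [mem_union, mem_Icc, mem_Ioc]
      omega
    · rw [Finset.disjoint_left]
      intro n h1 h2
      rw [mem_Icc] at h1
      rw [mem_Ioc] at h2
      omega
  have e2 : pl Q χ x = ∑ n ∈ Icc 1 x, a n * ((Real.log (x / n) : ℝ) : ℂ) := by
    unfold pl
    rw [Nat.floor_natCast]
  have e3 : ∑ n ∈ Icc 1 x, a n * ((Real.log (y / n) : ℝ) : ℂ) =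
      (t : ℂ) * ∑ n ∈ Icc 1 x, a n + pl Q χ x := by
    rw [e2, Finset.mul_sum, ← Finset.sum_add_distrib]
    apply Finset.sum_congr rfl
    intro n hn
    rw [mem_Icc] at hn
    have hn0 : (0 : ℝ) < n := by exact_mod_cast hn.1
    have h1 : Real.log (y / n) = t + Real.log (x / n) := by
      rw [ht, ← Real.log_mul (by positivity) (by positivity), hy]
      congr 1
      ring
    rw [h1]
    push_cast
    ring
  have e4 : (t : ℂ) * ∑ n ∈ Icc 1 x, a n = pl Q χ y - pl Q χ x -
      ∑ n ∈ Ioc x ⌊y⌋₊, a n * ((Real.log (y / n) : ℝ) : ℂ) := by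
    rw [e1, e3]
    ring
  have e5 : ‖∑ n ∈ Ioc x ⌊y⌋₊, a n * ((Real.log (y / n) : ℝ) : ℂ)‖ ≤
      (h * x + 1) * (Real.log (2 * x) * t) := by
    have h1 := psi_triv χ (Ioc x ⌊y⌋₊) (2 * x) (by linarith) (by
      intro n hn
      rw [mem_Ioc] at hn
      refine ⟨by omega, ?_⟩
      have h2 : (n : ℝ) ≤ ⌊y⌋₊ := by exact_mod_cast hn.2
      exact (h2.trans (Nat.floor_le hy0.le)).trans hy2) (fun n => Real.log (y / n)) t ht0.le (by
      intro n hn
      rw [mem_Ioc] at hn
      have hn0 : (0 : ℝ) < n := by exact_mod_cast (by omega : 0 < n)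
      have h2 : (n : ℝ) ≤ ⌊y⌋₊ := by exact_mod_cast hn.2
      have h3 : (n : ℝ) ≤ y := h2.trans (Nat.floor_le hy0.le)
      have h4 : (x : ℝ) ≤ n := by exact_mod_cast hn.1.le
      have h5 : 1 ≤ y / n := by rwa [one_le_div hn0]
      rw [abs_of_nonneg (Real.log_nonneg h5)]
      rw [ht]
      apply Real.log_le_log (by positivity)
      rw [div_le_iff₀ hn0, hy]
      nlinarith)
    refine h1.trans ?_
    have h2 : ((Ioc x ⌊y⌋₊).card : ℝ) ≤ h * x + 1 := by
      rw [Nat.card_Ioc, Nat.cast_sub hfl]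
      have := Nat.floor_le hy0.le
      rw [hy] at this ⊢
      linarith
    apply mul_le_mul_of_nonneg_right h2
    apply mul_nonneg (Real.log_nonneg (by linarith)) ht0.le
  have e6 : t * ‖∑ n ∈ Icc 1 x, a n‖ ≤ (‖pl Q χ y‖ + ‖pl Q χ x‖) +
      (h * x + 1) * (Real.log (2 * x) * t) := by
    have h1 : t * ‖∑ n ∈ Icc 1 x, a n‖ = ‖(t : ℂ) * ∑ n ∈ Icc 1 x, a n‖ := by
      rw [norm_mul, Complex.norm_real, Real.norm_of_nonneg ht0.le]
    rw [h1, e4]
    refine (norm_sub_le _ _).trans ?_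
    have := norm_sub_le (pl Q χ y) (pl Q χ x)
    linarith
  have e7 : ‖∑ n ∈ Icc 1 x, a n‖ ≤ (‖pl Q χ y‖ + ‖pl Q χ x‖) / t + (h * x + 1) * Real.log (2 * x) := by
    rw [← mul_le_mul_iff_right₀ ht0]
    refine e6.trans (le_of_eq ?_)
    field_simp
  refine e7.trans ?_
  have h8 : (‖pl Q χ y‖ + ‖pl Q χ x‖) / t ≤ 2 / h * (‖pl Q χ y‖ + ‖pl Q χ x‖) := by
    rw [div_eq_inv_mul]
    apply mul_le_mul_of_nonneg_right _ (by positivity)
    rw [inv_eq_one_div, div_le_div_iff₀ ht0 hh]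
    linarith
  linarith

/-- `ℓ² ≤ K exp (a ℓ)` -/
lemma sq_le_exp {a l : ℝ} (ha : 0 < a) (hl : 0 ≤ l) : l ^ 2 ≤ 2 / a ^ 2 * Real.exp (a * l) := by
  have h1 := Real.quadratic_le_exp_of_nonneg (x := a * l) (by positivity)
  have h2 : (a * l) ^ 2 / 2 ≤ Real.exp (a * l) := by nlinarith [mul_nonneg ha.le hl]
  have h3 : l ^ 2 = 2 / a ^ 2 * ((a * l) ^ 2 / 2) := by field_simp
  rw [h3]
  exact mul_le_mul_of_nonneg_left h2 (by positivity)

theorem psi : S_PSIA := by
  intro hreg _
  obtain ⟨c0, C0, l0, hc0, hc8, hC0, hl04, hR⟩ := hreg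
  obtain ⟨C1, hC1, hpl⟩ := pl_bound hc0 hc8 hC0
  set c : ℝ := c0 / 4 with hc
  have hcpos : 0 < c := by positivity
  have hc1 : c ≤ 1 / 32 := by rw [hc]; linarith
  -- the constants
  set K : ℝ := 2 / c ^ 2 with hK
  have hKpos : 0 < K := by positivity
  set M1 : ℝ := 3 * l0 ^ 2 * Real.exp (c * l0) with hM1
  have hM1pos : 0 ≤ M1 := by positivity
  refine ⟨c, M1 + (K + 56 * C1 * K + 8 * K), hcpos, by positivity, ?_⟩
  intro D hD j hj χ hχ x hx
  have hD1 : (1 : ℝ) ≤ D := by exact_mod_cast hD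
  have hD0 : (0 : ℝ) < D := by linarith
  set l : ℝ := √(D : ℝ) with hl
  have hl2 : l ^ 2 = D := Real.sq_sqrt hD0.le
  have hl1 : 1 ≤ l := by rw [hl]; exact Real.one_le_sqrt.2 hD1
  have hl0 : 0 < l := by linarith
  have hN0 : (0 : ℝ) < 10 ^ D := by positivity
  have hlog10 : Real.log (10 ^ D) = D * Real.log 10 := by rw [Real.log_pow]
  have h10a : 2 ≤ Real.log 10 := by
    rw [Real.le_log_iff_exp_le (by norm_num)]
    have h1 := Real.exp_one_lt_d9
    have h2 : Real.exp 2 = Real.exp 1 * Real.exp 1 := by rw [← Real.exp_add]; norm_num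
    rw [h2]
    nlinarith [Real.exp_pos 1]
  have h10b : Real.log 10 ≤ 2.5 := by
    rw [Real.log_le_iff_le_exp (by norm_num)]
    have h1 := Real.exp_one_gt_d9
    have h2 : Real.exp 2.5 = Real.exp 1 * Real.exp 1 * Real.exp 0.5 := by
      rw [← Real.exp_add, ← Real.exp_add]; norm_num
    have h3 : (1.5 : ℝ) ≤ Real.exp 0.5 := by
      have := Real.add_one_le_exp (0.5 : ℝ)
      linarith
    have h4 : (7.38 : ℝ) ≤ Real.exp 1 * Real.exp 1 := by nlinarith
    rw [h2]
    nlinarith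
  have hexp2 : Real.exp (2 * D) ≤ 10 ^ D := by
    rw [← Real.le_log_iff_exp_le hN0, hlog10]
    nlinarith
  have hE : 0 < Real.exp (-(c * l)) := Real.exp_pos _
  have hxr : (x : ℝ) ≤ 10 ^ D := by exact_mod_cast hx
  -- the case of `x = 0`
  rcases Nat.eq_zero_or_pos x with hx0 | hx0
  · rw [hx0]
    simp only [Finset.Icc_eq_empty_of_lt Nat.zero_lt_one, Finset.sum_empty, norm_zero]
    positivity
  have hx1 : (1 : ℝ) ≤ x := by exact_mod_cast hx0
  have hlogx : 0 ≤ Real.log x := Real.log_nonneg hx1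
  have htriv : ‖∑ n ∈ Icc 1 x, χ (n : ZMod (10 ^ j)) * ((Λ n : ℝ) : ℂ)‖ ≤ x * Real.log x := by
    have h1 := psi_triv χ (Icc 1 x) x hx1 (by
      intro n hn
      rw [mem_Icc] at hn
      exact ⟨hn.1, by exact_mod_cast hn.2⟩) (fun _ => 1) 1 zero_le_one (by
      intro n _
      simp)
    simpa using h1
  by_cases hsm : l < l0
  · -- small `D`
    refine htriv.trans ?_
    have h1 : Real.log x ≤ 3 * l0 ^ 2 := by
      have h2 : Real.log x ≤ Real.log (10 ^ D) := Real.log_le_log (by linarith) hxr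
      rw [hlog10] at h2
      have h3 : (D : ℝ) ≤ l0 ^ 2 := by
        rw [← hl2]
        exact pow_le_pow_left₀ hl0.le hsm.le 2
      nlinarith
    have h4 : 1 ≤ Real.exp (c * l0) * Real.exp (-(c * l)) := by
      rw [← Real.exp_add]
      apply Real.one_le_exp
      nlinarith
    calc x * Real.log x ≤ 10 ^ D * (3 * l0 ^ 2) := by gcongr
      _ = (3 * l0 ^ 2) * 10 ^ D * 1 := by ring
      _ ≤ (3 * l0 ^ 2) * 10 ^ D * (Real.exp (c * l0) * Real.exp (-(c * l))) := by
          apply mul_le_mul_of_nonneg_left h4 (by positivity)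
      _ = M1 * 10 ^ D * Real.exp (-(c * l)) := by rw [hM1]; ring
      _ ≤ _ := by
          apply mul_le_mul_of_nonneg_right _ hE.le
          apply mul_le_mul_of_nonneg_right _ hN0.le
          have : 0 ≤ K + 56 * C1 * K + 8 * K := by positivity
          linarith
  push Not at hsm
  have hsq := sq_le_exp hcpos hl0.le
  rw [← hK] at hsq
  -- it is enough to have the second constant
  suffices hgoal : ‖∑ n ∈ Icc 1 x, χ (n : ZMod (10 ^ j)) * ((Λ n : ℝ) : ℂ)‖ ≤
      (K + 56 * C1 * K + 8 * K) * 10 ^ D * Real.exp (-(c * l)) by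
    refine hgoal.trans ?_
    apply mul_le_mul_of_nonneg_right _ hE.le
    apply mul_le_mul_of_nonneg_right _ hN0.le
    linarith
  by_cases hxs : (x : ℝ) ≤ Real.exp D
  · -- small `x`
    refine htriv.trans ?_
    have h1 : Real.log x ≤ D := by
      rw [Real.log_le_iff_le_exp (by linarith)]; exact hxs
    have h2 : Real.exp D = Real.exp (-D) * Real.exp (2 * D) := by
      rw [← Real.exp_add]; congr 1; ring
    have h3 : Real.exp (-D) ≤ Real.exp (-(2 * (c * l))) := by
      apply Real.exp_le_exp.2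
      have : 2 * (c * l) ≤ D := by rw [← hl2]; nlinarith
      linarith
    have h4 : Real.exp (c * l) * Real.exp (-(2 * (c * l))) = Real.exp (-(c * l)) := by
      rw [← Real.exp_add]; congr 1; ring
    calc x * Real.log x ≤ Real.exp D * l ^ 2 := by rw [hl2]; gcongr
      _ ≤ (Real.exp (-(2 * (c * l))) * 10 ^ D) * (K * Real.exp (c * l)) := by
          rw [h2]
          gcongr
      _ = K * 10 ^ D * (Real.exp (c * l) * Real.exp (-(2 * (c * l)))) := by ring
      _ = K * 10 ^ D * Real.exp (-(c * l)) := by rw [h4]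
      _ ≤ _ := by
          apply mul_le_mul_of_nonneg_right _ hE.le
          apply mul_le_mul_of_nonneg_right _ hN0.le
          have : 0 ≤ 56 * C1 * K + 8 * K := by positivity
          linarith
  push Not at hxs
  have : NeZero (10 ^ j) := ⟨by positivity⟩
  have hjl : (10 : ℝ) ^ j ≤ Real.exp l := by
    refine hj.trans (Real.exp_le_exp.2 ?_)
    nlinarith
  have hRc := hR l hsm j hjl χ hχ
  have hlogx2 : (D : ℝ) ≤ Real.log x := by
    rw [Real.le_log_iff_exp_le (by linarith)]; exact hxs.le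
  -- the bound for the log weighted sums
  have hmain : ∀ y : ℝ, (x : ℝ) ≤ y → y ≤ 2 * x →
      ‖pl (10 ^ j) χ y‖ ≤ 14 * C1 * 10 ^ D * (K * Real.exp (-(3 * (c * l)))) := by
    intro y hy1 hy2
    have hyD : (D : ℝ) ≤ Real.log y := hlogx2.trans (Real.log_le_log (by linarith) hy1)
    have hye : Real.exp 1 ≤ y := by
      rw [← Real.le_log_iff_exp_le (by linarith)]
      linarith
    have hylog : Real.log y ≤ 4 * l ^ 2 := by
      have h1 : Real.log y ≤ Real.log (2 * 10 ^ D) := Real.log_le_log (by linarith) (by linarith)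
      rw [Real.log_mul (by norm_num) hN0.ne', hlog10] at h1
      have h2 : Real.log 2 ≤ 1 := by
        have := Real.log_two_lt_d9
        linarith
      rw [hl2]
      nlinarith
    have h1 := hpl l hl1 (10 ^ j) χ hχ hRc y (Real.exp l) hye
      (Real.one_le_exp hl0.le) le_rfl
    refine h1.trans ?_
    have h2 : Real.exp (-(c0 * Real.log y / l)) ≤ Real.exp (-(4 * (c * l))) := by
      apply Real.exp_le_exp.2
      rw [neg_le_neg_iff, le_div_iff₀ hl0]
      have : 4 * (c * l) * l = c0 * D := by rw [hc, ← hl2]; ring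
      rw [this]
      exact mul_le_mul_of_nonneg_left hyD hc0.le
    have h3 : l ^ 2 / Real.exp l ^ 2 ≤ l ^ 2 * Real.exp (-(4 * (c * l))) := by
      rw [div_eq_mul_inv, ← Real.exp_nat_mul, ← Real.exp_neg]
      apply mul_le_mul_of_nonneg_left _ (by positivity)
      apply Real.exp_le_exp.2
      push_cast
      nlinarith
    have h4 : Real.log y / Real.exp l ≤ 4 * l ^ 2 * Real.exp (-(4 * (c * l))) := by
      rw [div_eq_mul_inv, ← Real.exp_neg]
      apply mul_le_mul hylog _ (Real.exp_pos _).le (by positivity)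
      apply Real.exp_le_exp.2
      nlinarith
    have h5 : l ^ 2 * Real.exp (-(4 * (c * l))) ≤ K * Real.exp (-(3 * (c * l))) := by
      have h6 : Real.exp (c * l) * Real.exp (-(4 * (c * l))) = Real.exp (-(3 * (c * l))) := by
        rw [← Real.exp_add]; congr 1; ring
      calc l ^ 2 * Real.exp (-(4 * (c * l))) ≤ (K * Real.exp (c * l)) * Real.exp (-(4 * (c * l))) :=
            mul_le_mul_of_nonneg_right hsq (Real.exp_pos _).le
        _ = K * (Real.exp (c * l) * Real.exp (-(4 * (c * l)))) := by ring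
        _ = _ := by rw [h6]
    have h7 : l ^ 2 * Real.exp (-(c0 * Real.log y / l)) ≤ l ^ 2 * Real.exp (-(4 * (c * l))) :=
      mul_le_mul_of_nonneg_left h2 (by positivity)
    have h8 : l ^ 2 * Real.exp (-(c0 * Real.log y / l)) + l ^ 2 / Real.exp l ^ 2 +
        Real.log y / Real.exp l ≤ 7 * (K * Real.exp (-(3 * (c * l)))) := by
      have : 0 ≤ K * Real.exp (-(3 * (c * l))) := by positivity
      linarith
    calc C1 * y * (l ^ 2 * Real.exp (-(c0 * Real.log y / l)) + l ^ 2 / Real.exp l ^ 2 +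
        Real.log y / Real.exp l) ≤ C1 * (2 * 10 ^ D) * (7 * (K * Real.exp (-(3 * (c * l))))) := by
          have hy3 : y ≤ 2 * 10 ^ D := by linarith
          have hy0 : 0 ≤ y := by linarith
          have : 0 ≤ l ^ 2 * Real.exp (-(c0 * Real.log y / l)) + l ^ 2 / Real.exp l ^ 2 +
            Real.log y / Real.exp l := by
            have : 0 ≤ Real.log y := by linarith
            positivity
          gcongr
      _ = _ := by ring
  set h : ℝ := Real.exp (-(2 * (c * l))) with hh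
  have hh0 : 0 < h := Real.exp_pos _
  have hh1 : h ≤ 1 := by
    rw [hh]
    apply Real.exp_le_one_iff.2
    have : 0 ≤ c * l := by positivity
    linarith
  have hd := diff_bound χ hx0 hh0 hh1
  refine hd.trans ?_
  have b1 := hmain (x * (1 + h)) (by nlinarith) (by nlinarith)
  have b2 := hmain x le_rfl (by linarith)
  have b3 : 2 / h * (‖pl (10 ^ j) χ (x * (1 + h))‖ + ‖pl (10 ^ j) χ x‖) ≤
      56 * C1 * K * 10 ^ D * Real.exp (-(c * l)) := by
    have e1 : Real.exp (-(3 * (c * l))) = h * Real.exp (-(c * l)) := by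
      rw [hh, ← Real.exp_add]; congr 1; ring
    rw [e1] at b1 b2
    calc 2 / h * (‖pl (10 ^ j) χ (x * (1 + h))‖ + ‖pl (10 ^ j) χ x‖) ≤
          2 / h * (14 * C1 * 10 ^ D * (K * (h * Real.exp (-(c * l)))) +
            14 * C1 * 10 ^ D * (K * (h * Real.exp (-(c * l))))) := by
          apply mul_le_mul_of_nonneg_left (add_le_add b1 b2) (by positivity)
      _ = _ := by field_simp; ring
  have b4 : (h * x + 1) * Real.log (2 * x) ≤ 8 * K * 10 ^ D * Real.exp (-(c * l)) := by
    have h1 : Real.log (2 * x) ≤ 4 * l ^ 2 := by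
      have h1 : Real.log (2 * x) ≤ Real.log (2 * 10 ^ D) := Real.log_le_log (by linarith) (by linarith)
      rw [Real.log_mul (x := 2) (y := 10 ^ D) (by norm_num) hN0.ne', hlog10] at h1
      have h2 : Real.log 2 ≤ 1 := by
        have := Real.log_two_lt_d9
        linarith
      rw [hl2]
      nlinarith
    have h2 : 1 ≤ h * 10 ^ D := by
      calc 1 ≤ Real.exp (-(2 * (c * l)) + 2 * D) := by
            apply Real.one_le_exp
            rw [← hl2]
            nlinarith
        _ = h * Real.exp (2 * D) := by rw [hh, Real.exp_add]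
        _ ≤ _ := mul_le_mul_of_nonneg_left hexp2 hh0.le
    have h3 : h * x + 1 ≤ 2 * (h * 10 ^ D) := by
      have := mul_le_mul_of_nonneg_left hxr hh0.le
      linarith
    have h4 : Real.exp (c * l) * h = Real.exp (-(c * l)) := by
      rw [hh, ← Real.exp_add]; congr 1; ring
    calc (h * x + 1) * Real.log (2 * x) ≤ (2 * (h * 10 ^ D)) * (4 * l ^ 2) := by
          apply mul_le_mul h3 h1 (Real.log_nonneg (by linarith)) (by positivity)
      _ ≤ (2 * (h * 10 ^ D)) * (4 * (K * Real.exp (c * l))) := by gcongr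
      _ = 8 * K * 10 ^ D * (Real.exp (c * l) * h) := by ring
      _ = _ := by rw [h4]
  calc _ ≤ 56 * C1 * K * 10 ^ D * Real.exp (-(c * l)) + 8 * K * 10 ^ D * Real.exp (-(c * l)) :=
        add_le_add b3 b4
    _ = (56 * C1 * K + 8 * K) * 10 ^ D * Real.exp (-(c * l)) := by ring
    _ ≤ _ := by
        apply mul_le_mul_of_nonneg_right _ hE.le
        apply mul_le_mul_of_nonneg_right _ hN0.le
        linarith

end Pool.Agent.P8H90.RR
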